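import Pool.Agent.Lib.MP_28dd6c_pr.Upper

/-!
# Longer preference lists can hurt when schools have at least two seats

For every number `q ≥ 2` of seats per school, the matching probability of student number `n * q`
is not monotone in the list length: for every sufficiently large list length `d` and every
sufficiently large list length `ℓ` (depending on `d`), for all sufficiently large `n` the
student number `n * q` is matched with strictly smaller probability under lists of length `ℓ`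
than under lists of length `d`.
-/

namespace Pool.Agent.Results.MP_28dd6c_pr.Disproof

open Pool.Agent.Lib.MP_28dd6c_pr

theorem result (q : ℕ) (hq : 2 ≤ q) :
    ∃ d₀ : ℕ, 1 ≤ d₀ ∧ ∀ d ≥ d₀, ∃ ℓ₀ ≥ d, ∀ ℓ ≥ ℓ₀, ∃ N ≥ ℓ, ∀ n ≥ N,
      matchProb n ℓ q (n * q) < matchProb n d q (n * q) := by
  obtain ⟨r, rfl⟩ : ∃ r, q = r + 1 := ⟨q - 1, by omega⟩
  have hr : 1 ≤ r := by omega
  obtain ⟨d₁, hd₁⟩ := key_lower r hr
  refine ⟨d₁ + 1, by omega, ?_⟩
  intro d' hd'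
  obtain ⟨d, rfl⟩ : ∃ d, d' = d + 1 := ⟨d' - 1, by omega⟩
  have hd : d₁ ≤ d := by omega
  -- the time `T` with `z(T) ^ (d + 1) = 1 / 2`
  have hD : (0 : ℝ) < (d : ℝ) + 1 := by positivity
  have hc1 : Real.exp (-(Real.log 2 / ((d : ℝ) + 1))) < 1 := by
    rw [Real.exp_lt_one_iff]
    have : 0 < Real.log 2 / ((d : ℝ) + 1) := div_pos (Real.log_pos (by norm_num)) hD
    linarith
  obtain ⟨T, hT0, hT⟩ := exists_zz_eq r (Real.exp_pos _).le hc1
  have hTpow : zz (r + 1) T ^ (d + 1) = 1 / 2 := by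
    rw [hT, ← Real.exp_nat_mul]
    push_cast
    have : ((d : ℝ) + 1) * -(Real.log 2 / ((d : ℝ) + 1)) = -Real.log 2 := by
      field_simp
    rw [this, Real.exp_neg, Real.exp_log (by norm_num)]
    norm_num
  have hTT := hd₁ d hd T hT0 hTpow
  -- a slightly smaller time
  have hTpos : 0 < T := by
    rcases hT0.eq_or_lt with h | h
    · rw [← h, TT_zero] at hTT
      have : (0 : ℝ) ≤ ((r + 1 : ℕ) : ℝ) := Nat.cast_nonneg _
      linarith
    · exact h
  obtain ⟨T', hT'0, hT'T, hTT'⟩ : ∃ T', 0 ≤ T' ∧ T' < T ∧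
      ((r + 1 : ℕ) : ℝ) < TT (d + 1) (r + 1) T' := by
    have hcont := (hasDerivAt_TT d r hT0).continuousAt
    have hev := hcont.eventually (lt_mem_nhds hTT)
    have hev2 : ∀ᶠ x in nhdsWithin T (Set.Iio T), 0 ≤ x ∧ x < T ∧
        ((r + 1 : ℕ) : ℝ) < TT (d + 1) (r + 1) x := by
      have h1 : ∀ᶠ x in nhdsWithin T (Set.Iio T), ((r + 1 : ℕ) : ℝ) < TT (d + 1) (r + 1) x :=
        nhdsWithin_le_nhds hev
      have h2 : ∀ᶠ x in nhdsWithin T (Set.Iio T), x < T := self_mem_nhdsWithin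
      have h3 : ∀ᶠ x in nhdsWithin T (Set.Iio T), (0 : ℝ) ≤ x :=
        nhdsWithin_le_nhds ((lt_mem_nhds hTpos).mono (fun x hx => le_of_lt hx))
      filter_upwards [h1, h2, h3] with x hx1 hx2 hx3 using ⟨hx3, hx2, hx1⟩
    exact hev2.exists
  have hzlt : zz (r + 1) T' ^ (d + 1) < 1 / 2 := by
    rw [← hTpow]
    exact pow_lt_pow_left₀ (zz_strictMono r hT'0 hT'T) (zz_nonneg _ hT'0) (by omega)
  have hz'0 : 0 ≤ zz (r + 1) T' ^ (d + 1) := pow_nonneg (zz_nonneg _ hT'0) _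
  -- the margin
  obtain ⟨δ, hδ⟩ : ∃ δ : ℝ, δ = (1 / 2 - zz (r + 1) T' ^ (d + 1)) / 4 := ⟨_, rfl⟩
  have hδ0 : 0 < δ := by rw [hδ]; linarith
  have hδ1 : δ ≤ 1 / 8 := by rw [hδ]; linarith
  obtain ⟨l₀, hl₀⟩ := key_upper r (θ := 1 / 2 + δ) (by linarith) (by linarith)
  refine ⟨max (l₀ + 1) (d + 1), le_max_right _ _, ?_⟩
  intro ℓ hℓ
  have hℓ1 : l₀ + 1 ≤ ℓ := (le_max_left _ _).trans hℓ
  obtain ⟨l, rfl⟩ : ∃ l, ℓ = l + 1 := ⟨ℓ - 1, by omega⟩
  have hl : l₀ ≤ l := by omega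
  obtain ⟨t, ht0, htpow, htT⟩ := hl₀ l hl
  -- the laws of large numbers
  obtain ⟨N1, hN1⟩ := matchProb_approx (d + 1) (r + 1) δ hδ0
  obtain ⟨N2, hN2⟩ := matchProb_approx (l + 1) (r + 1) δ hδ0
  obtain ⟨N3, hN3⟩ := exists_nat_gt ((1 + ((r : ℝ) + 1) * ((l : ℝ) + 1) ^ 3) /
    (((r + 1 : ℕ) : ℝ) - TT (l + 1) (r + 1) t))
  refine ⟨max (max N1 N2) (max (N3 + 1) (l + 1)), ?_, ?_⟩
  · exact (le_max_right _ _).trans (le_max_right _ _)
  intro n hn
  have hnN1 : N1 ≤ n := ((le_max_left _ _).trans (le_max_left _ _)).trans hn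
  have hnN2 : N2 ≤ n := ((le_max_right _ _).trans (le_max_left _ _)).trans hn
  have hnN3 : N3 + 1 ≤ n := ((le_max_left _ _).trans (le_max_right _ _)).trans hn
  have hn0 : 0 < n := by omega
  have hn' : (0 : ℝ) < n := by exact_mod_cast hn0
  obtain ⟨i, hi⟩ : ∃ i, n * (r + 1) = i + 1 := by
    have : 0 < n * (r + 1) := Nat.mul_pos hn0 (by omega)
    exact ⟨n * (r + 1) - 1, by omega⟩
  have hilt : i < n * (r + 1) := by omega
  have hir : (i : ℝ) = n * ((r : ℝ) + 1) - 1 := by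
    have : ((n * (r + 1) : ℕ) : ℝ) = ((i + 1 : ℕ) : ℝ) := by rw [hi]
    push_cast at this
    linarith
  have hA := hN1 n hnN1 i hilt
  have hB := hN2 n hnN2 i hilt
  rw [← hi] at hA hB
  -- the short lists
  have hshort : zz (r + 1) (tt n (d + 1) (r + 1) i) ^ (d + 1) ≤ zz (r + 1) T' ^ (d + 1) := by
    have hτ0 := tt_nonneg n (d + 1) (r + 1) i
    have hup := clock_upper n d r hn0 i
    have hle : tt n (d + 1) (r + 1) i ≤ T' := by
      by_contra hcon
      push Not at hcon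
      have h1 := TT_strictMono d r hT'0 hcon
      have h2 : (i : ℝ) / n ≤ ((r + 1 : ℕ) : ℝ) := by
        rw [div_le_iff₀ hn', hir]
        push_cast
        nlinarith
      linarith
    exact pow_le_pow_left₀ (zz_nonneg _ hτ0) (zz_mono r hτ0 hle) _
  -- the long lists
  have hlong : 1 / 2 - δ ≤ zz (r + 1) (tt n (l + 1) (r + 1) i) ^ (l + 1) := by
    have hτ0 := tt_nonneg n (l + 1) (r + 1) i
    have hlo := clock_lower n l r hn0 i
    have hle : t ≤ tt n (l + 1) (r + 1) i := by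
      by_contra hcon
      push Not at hcon
      have h1 := TT_strictMono l r hτ0 hcon
      have hgap : 0 < ((r + 1 : ℕ) : ℝ) - TT (l + 1) (r + 1) t := by linarith
      rw [div_lt_iff₀ hgap] at hN3
      have h3 : (N3 : ℝ) ≤ n := by
        have : ((N3 + 1 : ℕ) : ℝ) ≤ n := by exact_mod_cast hnN3
        push_cast at this
        linarith
      have h4 : (N3 : ℝ) * (((r + 1 : ℕ) : ℝ) - TT (l + 1) (r + 1) t) ≤
          n * (((r + 1 : ℕ) : ℝ) - TT (l + 1) (r + 1) t) :=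
        mul_le_mul_of_nonneg_right h3 hgap.le
      have h5 : ((r : ℝ) + 1) - (1 + ((r : ℝ) + 1) * ((l : ℝ) + 1) ^ 3) / n ≤
          (i : ℝ) / n * (1 - ((l : ℝ) + 1) ^ 3 / n) := by
        rw [hir]
        have e : (n * ((r : ℝ) + 1) - 1) / n * (1 - ((l : ℝ) + 1) ^ 3 / n) =
            ((r : ℝ) + 1) - (1 + ((r : ℝ) + 1) * ((l : ℝ) + 1) ^ 3) / n +
              ((l : ℝ) + 1) ^ 3 / n ^ 2 := by
          field_simp
          ring
        rw [e]
        have : 0 ≤ ((l : ℝ) + 1) ^ 3 / (n : ℝ) ^ 2 := by positivity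
        linarith
      have h6 : (1 + ((r : ℝ) + 1) * ((l : ℝ) + 1) ^ 3) / n <
          ((r + 1 : ℕ) : ℝ) - TT (l + 1) (r + 1) t := by
        rw [div_lt_iff₀ hn']
        linarith
      push_cast at h6 hlo
      linarith
    have h7 : zz (r + 1) t ^ (l + 1) ≤ zz (r + 1) (tt n (l + 1) (r + 1) i) ^ (l + 1) :=
      pow_le_pow_left₀ (zz_nonneg _ ht0) (zz_mono r ht0 hle) _
    rw [htpow] at h7
    linarith
  have hA' := (abs_le.1 hA).1
  have hB' := (abs_le.1 hB).2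
  linarith

end Pool.Agent.Results.MP_28dd6c_pr.Disproof
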